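import Pool.Agent.Helper7.KT.St

set_option autoImplicit false

/-! Module MIB of project KT (MP_5176ab_co). -/

namespace Pool.Agent.Helper14.KT

open Finset SimpleGraph Filter Topology
open EX Pool.Agent.Helper7.KT
open scoped Classical

noncomputable section

theorem t_pos {U : Type} [Fintype U] (G : SimpleGraph U) (t : ℕ) (hB : Bp G 3 t) (hG : G ≠ ⊥) :
    1 ≤ t := by
  by_contra h
  have ht : t = 0 := by omega
  subst ht
  obtain ⟨A, h1, _, h3⟩ := hB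
  have h4 : ∀ u, u ∈ A := by
    intro u
    by_contra hu
    have h5 : (univ.filter fun u => u ∉ A) = ∅ := by
      rw [← Finset.card_eq_zero]
      omega
    have h6 : u ∈ (univ.filter fun u => u ∉ A) := by
      simp [hu]
    rw [h5] at h6
    simp at h6
  apply hG
  ext u v
  simp only [SimpleGraph.bot_adj, iff_false]
  intro huv
  exact ((h1 u v huv).mp (h4 u)) (h4 v)

theorem chooseBound (n x : ℕ) (hx : x ≤ n) :
    (n : ℝ) * x ≤ 2 * ((n.choose 2 : ℝ) - ((n - x).choose 2 : ℝ)) + n := by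
  rw [Nat.cast_choose_two, Nat.cast_choose_two, Nat.cast_sub hx]
  have h1 : (x : ℝ) ≤ n := by exact_mod_cast hx
  have h0 : (0 : ℝ) ≤ x := Nat.cast_nonneg x
  nlinarith [mul_nonneg h0 (sub_nonneg.mpr h1)]

theorem cqBound {n : ℕ} (U : Type) [Fintype U] (G : SimpleGraph U) (hKEX : StKEX)
    (Γ : SimpleGraph (Fin n)) (hΓ : G.Free Γ)
    (H : Finset (Finset (Fin n))) (hH : ∀ E ∈ H, E.card = 3) (Y : Finset (Fin n)) :
    (H.filter fun E => Cq Γ E).card ≤ exK (n - Y.card) 3 G + km Γ 3 Y := by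
  have hcl : ∀ E ∈ H.filter (fun E => Cq Γ E), E.card = 3 ∧ Γ.IsClique (E : Set (Fin n)) := by
    intro E hE
    rw [mem_filter] at hE
    refine ⟨hH E hE.1, ?_⟩
    intro u hu v hv huv
    exact hE.2 u (by exact_mod_cast hu) v (by exact_mod_cast hv) huv
  have h1 : (H.filter fun E => Cq Γ E).card ≤
      ((H.filter fun E => Cq Γ E).filter fun E => ∃ v ∈ E, v ∈ Y).card +
      ((H.filter fun E => Cq Γ E).filter fun E => ¬ ∃ v ∈ E, v ∈ Y).card :=
    (card_filter_add_card_filter_not _).ge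
  have h2 : ((H.filter fun E => Cq Γ E).filter fun E => ∃ v ∈ E, v ∈ Y).card ≤ km Γ 3 Y := by
    unfold km
    apply card_le_card
    intro E hE
    rw [mem_filter] at hE
    obtain ⟨a, b⟩ := hcl E hE.1
    refine (@Finset.mem_filter _ _ (_) _ _).mpr ?_
    exact ⟨mem_powersetCard.mpr ⟨subset_univ _, a⟩, b, hE.2⟩
  have h3 : ((H.filter fun E => Cq Γ E).filter fun E => ¬ ∃ v ∈ E, v ∈ Y).card ≤
      kc Γ 3 (univ.filter fun v => v ∉ Y) := by
    unfold kc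
    apply card_le_card
    intro E hE
    rw [mem_filter] at hE
    obtain ⟨a, b⟩ := hcl E hE.1
    refine (@Finset.mem_filter _ _ (_) _ _).mpr ?_
    refine ⟨mem_powersetCard.mpr ⟨?_, a⟩, b⟩
    intro v hv
    rw [mem_filter]
    exact ⟨mem_univ _, fun hvY => hE.2 ⟨v, hv, hvY⟩⟩
  have h4 := hKEX U G (Fin n) Γ hΓ 3 (univ.filter fun v => v ∉ Y)
  have h5 : (univ.filter fun v => v ∉ Y).card = n - Y.card := by
    have h6 := card_filter_add_card_filter_not (s := (univ : Finset (Fin n))) (fun v => v ∈ Y)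
    have h7 : (univ.filter fun v => v ∈ Y) = Y := by
      ext v
      simp
    rw [h7, card_univ, Fintype.card_fin] at h6
    omega
  rw [h5] at h4
  omega

theorem hMIB (hKFG : StKFG) (hRGF : StRGF) (hCEN : StCEN) (hKEX : StKEX) (hPOD : StPOD)
    (hCWT : StCWT) (hWGT : StWGT) (hKMY : StKMY) : StMIB := by
  intro U _ G t hB hG ε hε
  have ht : 1 ≤ t := t_pos G t hB hG
  have hε5 : 0 < ε / 5 := by positivity
  obtain ⟨δ, hδ, D, hP⟩ := hPOD U G t hB ht (ε / 5) hε5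
  obtain ⟨M, hM⟩ := hCEN 3 t (by norm_num) δ hδ
  obtain ⟨M', hW⟩ := hWGT U G t hB M D (ε / 5) hε5
  have hK := hKMY U G t hB ht M D M' (ε / 5) hε5
  have hN : ∀ᶠ n : ℕ in atTop, 5 / ε ≤ (n : ℝ) := tendsto_natCast_atTop_atTop.eventually_ge_atTop _
  filter_upwards [hP, hM, hW, hK, hN] with n hP hM hW hK hN
  by_cases hz : exr 3 n (expansion 3 G) = 0
  · refine ⟨0, Nat.zero_le _, ?_⟩
    rw [hz]
    have h1 : (0 : ℝ) ≤ exK (n - 0) 3 G := Nat.cast_nonneg _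
    have h2 : (0 : ℝ) ≤ ε * (n : ℝ) ^ (3 - 1) := by positivity
    simp only [Nat.sub_zero, sub_self, mul_zero, zero_add, Nat.cast_zero] at h1 ⊢
    exact add_nonneg h1 h2
  obtain ⟨H, hH1, hH2, hH3⟩ := exr_spec 3 n (expansion 3 G) (Nat.pos_of_ne_zero hz)
  have hFr : Fr 2 G H := ⟨hH1, hH2⟩
  have hfree : G.Free (Γr 2 G H) := hRGF 2 (by norm_num) U G (Fin n) H hFr
  have hKF : KF (Γr 2 G H) 3 t univ := hKFG U G 3 t hB (Fin n) (Γr 2 G H) hfree univ
  have hC : (Ct (Γr 2 G H) δ).card ≤ M := hM (Γr 2 G H) hKF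
  obtain ⟨X, hX, hsum⟩ := hW H hFr (Ct (Γr 2 G H) δ) hC (Pt δ D H) (pt_bd δ D H)
  have hkm := hK H hFr (Ct (Γr 2 G H) δ) hC (Pt δ D H) (pt_bd δ D H) X hX
  have h1 := hP H hFr
  have h2 := hCWT (Fin n) (Γr 2 G H) H (Ct (Γr 2 G H) δ) (Pt δ D H) (pt_bd δ D H).1
  set Y := Yy (Γr 2 G H) H (Ct (Γr 2 G H) δ) (Pt δ D H) X with hY
  have h3 := cqBound U G hKEX (Γr 2 G H) hfree H hH1 Y
  have hxn : Y.card ≤ n := by
    have := card_le_univ Y
    rwa [Fintype.card_fin] at this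
  refine ⟨Y.card, hxn, ?_⟩
  have hcard : H.card ≤ (H.filter fun E => Cq (Γr 2 G H) E).card +
      (H.filter fun E => tA (Γr 2 G H) H (Ct (Γr 2 G H) δ) E ∨
        tB (Γr 2 G H) H (Pt δ D H) E).card +
      (H.filter fun E => ¬ Cq (Γr 2 G H) E ∧ ¬ tA (Γr 2 G H) H (Ct (Γr 2 G H) δ) E ∧
        ¬ tB (Γr 2 G H) H (Pt δ D H) E).card := by
    have hsub : H ⊆ (H.filter fun E => Cq (Γr 2 G H) E) ∪
      (H.filter fun E => tA (Γr 2 G H) H (Ct (Γr 2 G H) δ) E ∨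
        tB (Γr 2 G H) H (Pt δ D H) E) ∪
      (H.filter fun E => ¬ Cq (Γr 2 G H) E ∧ ¬ tA (Γr 2 G H) H (Ct (Γr 2 G H) δ) E ∧
        ¬ tB (Γr 2 G H) H (Pt δ D H) E) := by
      intro E hE
      simp only [mem_union, mem_filter]
      by_cases a : Cq (Γr 2 G H) E
      · exact Or.inl (Or.inl ⟨hE, a⟩)
      · by_cases b : tA (Γr 2 G H) H (Ct (Γr 2 G H) δ) E
        · exact Or.inl (Or.inr ⟨hE, Or.inl b⟩)
        · by_cases c : tB (Γr 2 G H) H (Pt δ D H) E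
          · exact Or.inl (Or.inr ⟨hE, Or.inr c⟩)
          · exact Or.inr ⟨hE, a, b, c⟩
    calc H.card ≤ _ := card_le_card hsub
      _ ≤ _ := card_union_le _ _
      _ ≤ _ := Nat.add_le_add (card_union_le _ _) le_rfl
  rw [← hH3]
  have hcard' : (H.card : ℝ) ≤ ((H.filter fun E => Cq (Γr 2 G H) E).card : ℝ) +
      ((H.filter fun E => tA (Γr 2 G H) H (Ct (Γr 2 G H) δ) E ∨
        tB (Γr 2 G H) H (Pt δ D H) E).card : ℝ) +
      ((H.filter fun E => ¬ Cq (Γr 2 G H) E ∧ ¬ tA (Γr 2 G H) H (Ct (Γr 2 G H) δ) E ∧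
        ¬ tB (Γr 2 G H) H (Pt δ D H) E).card : ℝ) := by
    exact_mod_cast hcard
  have h2' : 2 * ((H.filter fun E => tA (Γr 2 G H) H (Ct (Γr 2 G H) δ) E ∨
        tB (Γr 2 G H) H (Pt δ D H) E).card : ℝ) ≤
        2 * n * Y.card + ε / 5 * (n : ℝ) ^ 2 := by
    refine le_trans ?_ hsum
    exact_mod_cast h2
  have h3' : ((H.filter fun E => Cq (Γr 2 G H) E).card : ℝ) ≤
      exK (n - Y.card) 3 G + km (Γr 2 G H) 3 Y := by exact_mod_cast h3
  have h4 := chooseBound n Y.card hxn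
  have h5 : (n : ℝ) ≤ ε / 5 * (n : ℝ) ^ 2 := by
    have h6 : 1 ≤ ε / 5 * (n : ℝ) := by
      have := mul_le_mul_of_nonneg_left hN hε5.le
      have h7 : ε / 5 * (5 / ε) = 1 := by
        field_simp
      linarith
    nlinarith [Nat.cast_nonneg (α := ℝ) n]
  have hn2 : (0 : ℝ) ≤ ε / 5 * (n : ℝ) ^ 2 := by positivity
  have e1 : (3 - 1 : ℕ) = 2 := rfl
  rw [e1]
  norm_num
  linarith
end

end Pool.Agent.Helper14.KT
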